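import Mathlib

/-!
Definitions for the realization problem for Alexander polynomials of closed 3-manifolds with
first Betti number one.
-/

open CategoryTheory AlgebraicTopology LaurentPolynomial

namespace Pool.Agent.MP31b0c0

/-- `H_n(X; ℤ)`: Mathlib's singular homology of the topological space `X` with coefficients in
`ℤ`. -/
noncomputable abbrev Hn (n : ℕ) (X : Type) [TopologicalSpace X] : ModuleCat.{0} ℤ :=
  ((singularHomologyFunctor (ModuleCat.{0} ℤ) n).obj (ModuleCat.of ℤ ℤ)).obj (TopCat.of X)

/-- The automorphism of `H_n(X; ℤ)` induced by a homeomorphism of `X`. -/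
noncomputable def HnMap (n : ℕ) {X : Type} [TopologicalSpace X] (f : X ≃ₜ X) :
    Hn n X ≃ₗ[ℤ] Hn n X :=
  (((singularHomologyFunctor (ModuleCat.{0} ℤ) n).obj (ModuleCat.of ℤ ℤ)).mapIso
    (TopCat.isoOfHomeo (X := TopCat.of X) (Y := TopCat.of X) f)).toLinearEquiv

/-- An infinite cyclic covering of a space `M`: a connected covering space `E → M` with a
homeomorphism `deck` of `E` over `M` such that the infinite cyclic group generated by `deck`
acts freely and transitively on every fibre. (So `deck` generates the deck group, which is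
infinite cyclic. If `H₁(M)` has rank one, such a covering is the one which corresponds to
`H₁(M) → H₁(M)/Tors ≅ ℤ`, and `deck` is the generator `t` or `t⁻¹`.) -/
structure InfiniteCyclicCover (M : Type) [TopologicalSpace M] where
  /-- The total space. -/
  E : Type
  [top : TopologicalSpace E]
  [conn : ConnectedSpace E]
  /-- The covering projection. -/
  proj : E → M
  isCoveringMap : IsCoveringMap proj
  surjective : Function.Surjective proj
  /-- The generator `t` of the group of deck transformations. -/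
  deck : E ≃ₜ E
  proj_deck : ∀ e, proj (deck e) = proj e
  existsUnique_zpow : ∀ e e', proj e = proj e' → ∃! k : ℤ, (deck ^ k) e = e'

attribute [instance] InfiniteCyclicCover.top InfiniteCyclicCover.conn

/-- The ring homomorphism `ℤ[t, t⁻¹] → End(A)` which sends `t` to the automorphism `τ`. -/
noncomputable def laurentHom {A : Type} [AddCommGroup A] [Module ℤ A] (τ : A ≃ₗ[ℤ] A) :
    ℤ[T;T⁻¹] →+* Module.End ℤ A :=
  (AddMonoidAlgebra.lift ℤ (Module.End ℤ A) ℤ
    ((LinearEquiv.automorphismGroup.toLinearMapMonoidHom).comp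
      (zpowersHom (A ≃ₗ[ℤ] A) τ))).toRingHom

/-- The structure of a `ℤ[t, t⁻¹]`-module on `H₁(M̃; ℤ)`, for an infinite cyclic covering
`M̃ → M`: the variable `t` acts by the deck transformation. -/
noncomputable abbrev alexanderModule {M : Type} [TopologicalSpace M]
    (c : InfiniteCyclicCover M) : Module ℤ[T;T⁻¹] (Hn 1 c.E) :=
  Module.compHom (Hn 1 c.E) (laurentHom (HnMap 1 c.deck))

/-- `D` is the order of the finitely generated `ℤ[t, t⁻¹]`-module `A`: `A` has a presentation
matrix `P` with `n` generators (columns) and `m` relations (rows), and `D` is a greatest common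
divisor of the `n × n` minors of `P`, i.e. of the elements of the elementary ideal of `A`. -/
def IsOrder (A : Type) [AddCommGroup A] [Module ℤ[T;T⁻¹] A] (D : ℤ[T;T⁻¹]) : Prop :=
  ∃ (m n : ℕ) (P : Matrix (Fin m) (Fin n) ℤ[T;T⁻¹])
    (f : (Fin n → ℤ[T;T⁻¹]) →ₗ[ℤ[T;T⁻¹]] A),
    Function.Surjective f ∧
    LinearMap.ker f = Submodule.span ℤ[T;T⁻¹] (Set.range P) ∧
    ∀ g : ℤ[T;T⁻¹], (∀ s : Fin n → Fin m, g ∣ (P.submatrix s id).det) ↔ g ∣ D

/-- Evaluation of a Laurent polynomial at `t = 1`. -/
noncomputable def ev1 : ℤ[T;T⁻¹] →+* ℤ := LaurentPolynomial.eval₂ (RingHom.id ℤ) 1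

/-- The two necessary conditions: `D(t) = t ^ k D(t⁻¹)` for some even integer `k`, and
`D(1) = ± |Tors H|`. -/
def SatisfiesConditions (H : Type) [AddCommGroup H] (D : ℤ[T;T⁻¹]) : Prop :=
  (∃ k : ℤ, Even k ∧ D = T k * invert D) ∧ (ev1 D).natAbs = Nat.card (AddCommGroup.torsion H)

/-- The pair `(H, D)` is realized by the space `M`: `H₁(M; ℤ) ≅ H` and `D` is the order of
the `ℤ[t, t⁻¹]`-module `H₁(M̃; ℤ)`, where `M̃ → M` is an infinite cyclic covering. -/
def Realizes (M : Type) [TopologicalSpace M] (H : Type) [AddCommGroup H] (D : ℤ[T;T⁻¹]) : Prop :=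
  ∃ c : InfiniteCyclicCover M, Nonempty (Hn 1 M ≃+ H) ∧
    @IsOrder (Hn 1 c.E) _ (alexanderModule c) D

end Pool.Agent.MP31b0c0
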