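import Mathlib
import Pool.Agent.Lib.MP_31b0c0_gt.Defs

open LaurentPolynomial Module

namespace Pool.Agent.MP31b0c0

@[simp] lemma ev1_T (n : ℤ) : ev1 (T n) = 1 := by simp [ev1]

@[simp] lemma ev1_C (a : ℤ) : ev1 (C a) = a := by simp [ev1]

lemma T_sub_one_dvd (n : ℤ) : (T 1 - 1 : ℤ[T;T⁻¹]) ∣ T n - 1 := by
  have hnat : ∀ k : ℕ, (T 1 - 1 : ℤ[T;T⁻¹]) ∣ T (k : ℤ) - 1 := by
    intro k
    have := sub_dvd_pow_sub_pow (T 1 : ℤ[T;T⁻¹]) 1 k
    simpa [T_pow] using this
  obtain ⟨k, rfl | rfl⟩ := n.eq_nat_or_neg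
  · exact hnat k
  · have h : (T (-(k : ℤ)) - 1 : ℤ[T;T⁻¹]) = (T (k : ℤ) - 1) * (-T (-(k : ℤ))) := by
      have : (T (k : ℤ) * T (-(k : ℤ)) : ℤ[T;T⁻¹]) = 1 := by rw [← T_add]; simp
      linear_combination this
    rw [h]
    exact (hnat k).mul_right _

lemma exists_ev1_decomp (l : ℤ[T;T⁻¹]) : ∃ m, l = C (ev1 l) + (T 1 - 1) * m := by
  induction l using LaurentPolynomial.induction_on' with
  | add p q hp hq =>
    obtain ⟨a, ha⟩ := hp
    obtain ⟨b, hb⟩ := hq
    refine ⟨a + b, ?_⟩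
    rw [map_add, map_add]
    linear_combination ha + hb
  | C_mul_T n a =>
    obtain ⟨c, hc⟩ := T_sub_one_dvd n
    refine ⟨C a * c, ?_⟩
    rw [map_mul, ev1_T, ev1_C, mul_one]
    linear_combination (C a) * hc

section core

variable {A K : Type*} [AddCommGroup A] [Module ℤ[T;T⁻¹] A] [AddCommGroup K]

lemma q_smul (q : A →+ K) (hker : ∀ b : A, q ((T 1 - 1 : ℤ[T;T⁻¹]) • b) = 0)
    (l : ℤ[T;T⁻¹]) (a : A) : q (l • a) = ev1 l • q a := by
  obtain ⟨m, hm⟩ := exists_ev1_decomp l
  have h1 : l • a = (C (ev1 l) : ℤ[T;T⁻¹]) • a + (T 1 - 1 : ℤ[T;T⁻¹]) • (m • a) := by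
    conv_lhs => rw [hm]
    rw [add_smul, mul_smul]
  have h2 : (C (ev1 l) : ℤ[T;T⁻¹]) • a = ev1 l • a := by
    have : (C (ev1 l) : ℤ[T;T⁻¹]) = ((ev1 l : ℤ) : ℤ[T;T⁻¹]) := by simp
    rw [this, Int.cast_smul_eq_zsmul]
  rw [h1, map_add, hker, add_zero, h2, map_zsmul]

lemma q_f (q : A →+ K) (hker : ∀ b : A, q ((T 1 - 1 : ℤ[T;T⁻¹]) • b) = 0)
    {n : ℕ} (f : (Fin n → ℤ[T;T⁻¹]) →ₗ[ℤ[T;T⁻¹]] A) (v : Fin n → ℤ[T;T⁻¹]) :
    q (f v) = ∑ j, ev1 (v j) • q (f (Pi.single j 1)) := by
  have hv : v = ∑ j, v j • (Pi.single j 1 : Fin n → ℤ[T;T⁻¹]) := by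
    ext k
    simp [Finset.sum_apply, Pi.single_apply]
  conv_lhs => rw [hv]
  rw [map_sum, map_sum]
  refine Finset.sum_congr rfl fun j _ => ?_
  rw [map_smul, q_smul q hker]

/-- A divisor of all maximal minors of `P` divides the determinant of every square matrix whose
rows are combinations of the rows of `P`. -/
lemma dvd_det_of_rows {R : Type*} [CommRing R] {m n : ℕ} (P : Matrix (Fin m) (Fin n) R) (d : R)
    (hd : ∀ s : Fin n → Fin m, d ∣ (P.submatrix s id).det)
    (B : Matrix (Fin n) (Fin n) R) (hB : ∀ i, B i ∈ Submodule.span R (Set.range P)) :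
    d ∣ B.det := by
  have h : ∀ i, ∃ c : Fin m → R, ∑ k, c k • P k = B i := fun i =>
    (Submodule.mem_span_range_iff_exists_fun R).1 (hB i)
  choose c hc using h
  have : B.det = ∑ s : Fin n → Fin m, (∏ i, c i (s i)) * (P.submatrix s id).det := by
    have h1 : B = fun i => ∑ k, c i k • P k := by
      funext i; exact (hc i).symm
    change Matrix.detRowAlternating B = _
    rw [h1]
    have h2 := (Matrix.detRowAlternating (n := Fin n) (R := R)).toMultilinearMap.map_sum
      (g := fun i k => c i k • P k)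
    refine h2.trans ?_
    refine Finset.sum_congr rfl fun s _ => ?_
    exact (Matrix.detRowAlternating (n := Fin n) (R := R)).toMultilinearMap.map_smul_univ
      (fun i => c i (s i)) (fun i => P (s i))
  rw [this]
  exact Finset.dvd_sum fun s _ => (hd s).mul_left _

/-- Existence of a relation matrix whose determinant at `t = 1` is the order of
`A / (t - 1) A`. -/
lemma exists_relation_matrix [Finite K] (q : A →+ K) (hq : Function.Surjective q)
    (hker : ∀ a : A, q a = 0 ↔ ∃ b : A, a = (T 1 - 1 : ℤ[T;T⁻¹]) • b)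
    {n : ℕ} (f : (Fin n → ℤ[T;T⁻¹]) →ₗ[ℤ[T;T⁻¹]] A) (hf : Function.Surjective f) :
    ∃ B : Matrix (Fin n) (Fin n) ℤ[T;T⁻¹], (∀ i, f (B i) = 0) ∧
      (ev1 B.det).natAbs = Nat.card K := by
  have hker0 : ∀ b : A, q ((T 1 - 1 : ℤ[T;T⁻¹]) • b) = 0 := fun b => (hker _).2 ⟨b, rfl⟩
  let g : (Fin n → ℤ) →ₗ[ℤ] K :=
    (Fintype.linearCombination ℤ (fun j => q (f (Pi.single j 1))))
  have hg : ∀ c, g c = ∑ j, c j • q (f (Pi.single j 1)) := fun c => by
    simp [g, Fintype.linearCombination_apply]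
  have hgs : Function.Surjective g := by
    intro k
    obtain ⟨a, rfl⟩ := hq k
    obtain ⟨v, rfl⟩ := hf a
    exact ⟨fun j => ev1 (v j), by rw [hg, q_f q hker0]⟩
  let N : Submodule ℤ (Fin n → ℤ) := LinearMap.ker g
  let e : ((Fin n → ℤ) ⧸ N) ≃ₗ[ℤ] K := g.quotKerEquivOfSurjective hgs
  have hfin : Finite ((Fin n → ℤ) ⧸ N) := Finite.of_equiv K e.symm.toEquiv
  have hcard : Nat.card ((Fin n → ℤ) ⧸ N) = Nat.card K := Nat.card_congr e.toEquiv
  have hrank : Module.finrank ℤ N = n := by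
    have h1 := Submodule.finrank_quotient_add_finrank N
    have h2 : Module.finrank ℤ ((Fin n → ℤ) ⧸ N) = 0 := by
      rw [Module.finrank_eq_zero_iff_isTorsion]
      rw [← isAddTorsion_iff_isTorsion_int]
      exact isAddTorsion_of_finite
    rw [h2, zero_add] at h1
    simpa using h1
  let bN : Basis (Fin n) ℤ N := (Module.finBasis ℤ N).reindex (finCongr hrank)
  have hdet := Submodule.natAbs_det_basis_change (Pi.basisFun ℤ (Fin n)) N bN
  -- lift the relations
  have hlift : ∀ i, ∃ b : Fin n → ℤ[T;T⁻¹],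
      f (fun j => C ((bN i : Fin n → ℤ) j) - (T 1 - 1) * b j) = 0 := by
    intro i
    have h0 : q (f (fun j => C ((bN i : Fin n → ℤ) j))) = 0 := by
      rw [q_f q hker0]
      have := (bN i).2
      rw [LinearMap.mem_ker, hg] at this
      simpa using this
    obtain ⟨a, ha⟩ := (hker _).1 h0
    obtain ⟨b, rfl⟩ := hf a
    refine ⟨b, ?_⟩
    have : (fun j => C ((bN i : Fin n → ℤ) j) - (T 1 - 1) * b j) =
        (fun j => C ((bN i : Fin n → ℤ) j)) - (T 1 - 1 : ℤ[T;T⁻¹]) • b := by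
      ext j; simp
    rw [this, map_sub, ha, map_smul, sub_self]
  choose b hb using hlift
  refine ⟨Matrix.of fun i j => C ((bN i : Fin n → ℤ) j) - (T 1 - 1) * b i j, fun i => ?_, ?_⟩
  · exact hb i
  rw [RingHom.map_det, ← hcard, ← hdet, Basis.det_apply, ← Matrix.det_transpose]
  congr 2
  ext i j
  simp [Matrix.transpose_apply, RingHom.mapMatrix_apply, Matrix.map_apply, Basis.toMatrix_apply]

end core


section theta

open PowerSeries

lemma isUnit_one_add_X (p : ℕ) : IsUnit (1 + X : (ZMod p)⟦X⟧) := by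
  rw [PowerSeries.isUnit_iff_constantCoeff]
  simp

/-- The ring homomorphism `ℤ[t, t⁻¹] → 𝔽_p⟦X⟧`, `t ↦ 1 + X`. -/
noncomputable def theta (p : ℕ) : ℤ[T;T⁻¹] →+* (ZMod p)⟦X⟧ :=
  LaurentPolynomial.eval₂ (Int.castRingHom _) (isUnit_one_add_X p).unit

@[simp] lemma theta_T_one (p : ℕ) : theta p (T 1) = 1 + X := by
  rw [theta, LaurentPolynomial.eval₂_T]
  simp

@[simp] lemma theta_C (p : ℕ) (a : ℤ) : theta p (LaurentPolynomial.C a) = (a : (ZMod p)⟦X⟧) := by
  simp [theta]

lemma constantCoeff_theta (p : ℕ) (l : ℤ[T;T⁻¹]) :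
    constantCoeff (theta p l) = ((ev1 l : ℤ) : ZMod p) := by
  obtain ⟨m, hm⟩ := exists_ev1_decomp l
  have h : theta p l = ((ev1 l : ℤ) : (ZMod p)⟦X⟧) + X * theta p m := by
    conv_lhs => rw [hm]
    rw [map_add, map_mul, map_sub, theta_T_one, theta_C, map_one]
    ring
  rw [h]
  simp

/-- If `B * W` has all entries divisible by `X`, where `W` is a constant `n × r` matrix whose
columns are linearly independent, then `X ^ r ∣ det B`. -/
lemma X_pow_dvd_det {F : Type*} [Field F] {n r : ℕ} (B : Matrix (Fin n) (Fin n) F⟦X⟧)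
    (w : Fin r → (Fin n → F)) (hw : LinearIndependent F w)
    (h : ∀ i k, constantCoeff (∑ j, B i j * PowerSeries.C (w k j)) = 0) :
    X ^ r ∣ B.det := by
  classical
  let I := hw.linearIndepOn_id.extend (Set.subset_univ _)
  let b : Basis I F (Fin n → F) := Basis.extend hw.linearIndepOn_id
  have hb : ∀ x : I, b x = x := fun x => Basis.extend_apply_self _ _
  have hsub : Set.range w ⊆ I := hw.linearIndepOn_id.subset_extend _
  have hfin : Finite I := Module.Finite.finite_basis b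
  let _ : Fintype I := Fintype.ofFinite _
  have hcard : Fintype.card I = Fintype.card (Fin n) := by
    rw [← Module.finrank_eq_card_basis b, Module.finrank_fin_fun, Fintype.card_fin]
  let e : I ≃ Fin n := Fintype.equivOfCardEq hcard
  let b' : Basis (Fin n) F (Fin n → F) := b.reindex e
  have hb'e : ∀ x : I, b' (e x) = x := by
    intro x
    simp only [b', Basis.reindex_apply, Equiv.symm_apply_apply, hb]
  let V : Matrix (Fin n) (Fin n) F := Matrix.of fun j s => b' s j
  have hV : IsUnit V.det := by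
    have : V = (Pi.basisFun F (Fin n)).toMatrix b' := by
      ext i j
      simp [V, Basis.toMatrix_apply]
    rw [this, ← Basis.det_apply]
    exact (Pi.basisFun F (Fin n)).isUnit_det b'
  let V' : Matrix (Fin n) (Fin n) F⟦X⟧ := V.map PowerSeries.C
  have hV' : IsUnit V'.det := by
    have : V'.det = PowerSeries.C V.det := by
      rw [RingHom.map_det]; rfl
    rw [this]
    exact hV.map _
  -- columns of `B * V'`
  have hcol : ∀ i s, ∃ c : F⟦X⟧, (B * V') i s = (if b' s ∈ Set.range w then X else 1) * c := by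
    intro i s
    by_cases hs : b' s ∈ Set.range w
    · obtain ⟨k, hk⟩ := hs
      have h0 := h i k
      have : (B * V') i s = ∑ j, B i j * PowerSeries.C (w k j) := by
        rw [Matrix.mul_apply]
        refine Finset.sum_congr rfl fun j _ => ?_
        have : V' j s = PowerSeries.C (w k j) := by
          simp only [V', V, Matrix.map_apply, Matrix.of_apply]
          rw [hk]
        rw [this]
      rw [← this] at h0
      rw [← PowerSeries.X_dvd_iff] at h0
      obtain ⟨c, hc⟩ := h0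
      exact ⟨c, by rw [if_pos ⟨k, hk⟩, hc]⟩
    · exact ⟨(B * V') i s, by rw [if_neg hs, one_mul]⟩
  choose c hc using hcol
  have hdet : (B * V').det = (∏ s, (if b' s ∈ Set.range w then X else 1 : F⟦X⟧)) *
      (Matrix.of c).det := by
    rw [← Matrix.det_mul_row]
    congr 1
    ext i s
    rw [hc, Matrix.of_apply, Matrix.of_apply]
  have hprod : (∏ s, (if b' s ∈ Set.range w then X else 1 : F⟦X⟧)) = X ^ r := by
    rw [Finset.prod_ite, Finset.prod_const, Finset.prod_const_one, mul_one]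
    congr 1
    have : (Finset.univ.filter fun s => b' s ∈ Set.range w) =
        Finset.univ.image (fun k : Fin r => e ⟨w k, hsub ⟨k, rfl⟩⟩) := by
      ext s
      simp only [Finset.mem_filter, Finset.mem_univ, true_and, Finset.mem_image]
      constructor
      · rintro ⟨k, hk⟩
        refine ⟨k, ?_⟩
        apply b'.injective
        rw [hb'e, ← hk]
      · rintro ⟨k, rfl⟩
        exact ⟨k, by rw [hb'e]⟩
    rw [this, Finset.card_image_of_injective, Finset.card_univ, Fintype.card_fin]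
    intro k k' hkk
    have h1 := e.injective hkk
    have h2 : w k = w k' := congrArg Subtype.val h1
    exact hw.injective h2
  rw [hprod, Matrix.det_mul] at hdet
  have : X ^ r ∣ B.det * V'.det := ⟨_, hdet⟩
  exact (IsUnit.dvd_mul_right hV').1 this

end theta

section core

open PowerSeries

variable {A K : Type*} [AddCommGroup A] [Module ℤ[T;T⁻¹] A] [AddCommGroup K]

/-- The algebraic obstruction. Let `A` be a `ℤ[t,t⁻¹]`-module with a finite presentation matrix
`P`, all of whose maximal minors are divisible by `D`; suppose that `A / (t - 1) A` is a finite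
abelian group `K` of order `|D(1)|`, and that `K` surjects onto `𝔽_p ^ r`. Then the image of `D`
in `𝔽_p⟦t - 1⟧` is divisible by `(t - 1) ^ r`. -/
theorem alg_core [Finite K] (q : A →+ K) (hq : Function.Surjective q)
    (hker : ∀ a : A, q a = 0 ↔ ∃ b : A, a = (T 1 - 1 : ℤ[T;T⁻¹]) • b)
    {m n : ℕ} (P : Matrix (Fin m) (Fin n) ℤ[T;T⁻¹])
    (f : (Fin n → ℤ[T;T⁻¹]) →ₗ[ℤ[T;T⁻¹]] A) (hf : Function.Surjective f)
    (hP : LinearMap.ker f = Submodule.span ℤ[T;T⁻¹] (Set.range P))
    (D : ℤ[T;T⁻¹]) (hD : ∀ s : Fin n → Fin m, D ∣ (P.submatrix s id).det)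
    (hD1 : (ev1 D).natAbs = Nat.card K)
    (p r : ℕ) [Fact p.Prime] (φ : K →+ (Fin r → ZMod p)) (hφ : Function.Surjective φ) :
    (X : (ZMod p)⟦X⟧) ^ r ∣ theta p D := by
  have hker0 : ∀ b : A, q ((T 1 - 1 : ℤ[T;T⁻¹]) • b) = 0 := fun b => (hker _).2 ⟨b, rfl⟩
  obtain ⟨B, hB, hBdet⟩ := exists_relation_matrix q hq hker f hf
  have hdvd : D ∣ B.det := by
    refine dvd_det_of_rows P D hD B fun i => ?_
    rw [← hP]
    exact hB i
  obtain ⟨j, hj⟩ := hdvd
  -- `j(1) = ± 1`
  have hj1 : (ev1 j).natAbs = 1 := by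
    have h1 : (ev1 B.det).natAbs = (ev1 D).natAbs * (ev1 j).natAbs := by
      rw [hj, map_mul, Int.natAbs_mul]
    rw [hBdet, hD1] at h1
    have hpos : 0 < Nat.card K := Nat.card_pos
    nlinarith
  have hunit : IsUnit (theta p j) := by
    rw [PowerSeries.isUnit_iff_constantCoeff, constantCoeff_theta]
    rcases Int.natAbs_eq_iff.1 hj1 with h | h
    · rw [h]; simp
    · rw [h]; simp
  -- the columns
  let w : Fin r → (Fin n → ZMod p) := fun k j => φ (q (f (Pi.single j 1))) k
  have hw : LinearIndependent (ZMod p) w := by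
    rw [Fintype.linearIndependent_iff]
    intro g hg i
    -- choose an element of `K` mapping to `e_i`
    obtain ⟨x, hx⟩ := hφ (Pi.single i 1)
    obtain ⟨a, rfl⟩ := hq x
    obtain ⟨v, rfl⟩ := hf a
    rw [q_f q hker0, map_sum] at hx
    have h1 : ∀ k, (Pi.single i 1 : Fin r → ZMod p) k =
        ∑ j, ((ev1 (v j) : ℤ) : ZMod p) * w k j := by
      intro k
      rw [← hx, Finset.sum_apply]
      refine Finset.sum_congr rfl fun j _ => ?_
      rw [map_zsmul, Pi.smul_apply, zsmul_eq_mul]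
    have h2 : ∑ k, g k * (Pi.single i 1 : Fin r → ZMod p) k = g i := by
      simp [Pi.single_apply]
    rw [← h2]
    have h3 : ∀ j, ∑ k, g k * w k j = 0 := by
      intro j
      have := congrFun hg j
      simpa [Finset.sum_apply] using this
    calc ∑ k, g k * (Pi.single i 1 : Fin r → ZMod p) k
        = ∑ k, g k * ∑ j, ((ev1 (v j) : ℤ) : ZMod p) * w k j := by
          refine Finset.sum_congr rfl fun k _ => ?_
          rw [h1]
      _ = ∑ j, ((ev1 (v j) : ℤ) : ZMod p) * ∑ k, g k * w k j := by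
          simp only [Finset.mul_sum]
          rw [Finset.sum_comm]
          refine Finset.sum_congr rfl fun j _ => Finset.sum_congr rfl fun k _ => ?_
          ring
      _ = 0 := by simp [h3]
  have hX : (X : (ZMod p)⟦X⟧) ^ r ∣ ((theta p).mapMatrix B).det := by
    refine X_pow_dvd_det _ w hw fun i k => ?_
    rw [map_sum]
    have h1 : q (f (B i)) = 0 := by rw [hB i, map_zero]
    rw [q_f q hker0] at h1
    have h2 := congrFun (congrArg φ h1) k
    rw [map_sum, map_zero, Finset.sum_apply, Pi.zero_apply] at h2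
    refine Eq.trans ?_ h2
    refine Finset.sum_congr rfl fun j _ => ?_
    rw [map_mul, RingHom.mapMatrix_apply, Matrix.map_apply, constantCoeff_theta,
      PowerSeries.constantCoeff_C, map_zsmul, Pi.smul_apply, zsmul_eq_mul]
  rw [← RingHom.map_det, hj, map_mul] at hX
  exact (IsUnit.dvd_mul_right hunit).1 hX

/-- The specific polynomial `N t + (t - 1)²`. -/
noncomputable def badPoly (N : ℕ) : ℤ[T;T⁻¹] :=
  LaurentPolynomial.C (N : ℤ) * T 1 + (T 1 - 1) ^ 2

lemma ev1_badPoly (N : ℕ) : ev1 (badPoly N) = N := by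
  simp [badPoly]

lemma invert_badPoly (N : ℕ) : badPoly N = T 2 * LaurentPolynomial.invert (badPoly N) := by
  rw [badPoly, map_add, map_mul, map_pow, map_sub, map_one, invert_C, invert_T]
  have h1 : (T 1 * T (-1) : ℤ[T;T⁻¹]) = 1 := by rw [← T_add]; simp
  have h2 : (T 2 : ℤ[T;T⁻¹]) = T 1 * T 1 := by rw [← T_add]; norm_num
  rw [h2]
  linear_combination (-(LaurentPolynomial.C (N : ℤ) * T 1) - (1 + T 1 * T (-1)) + 2 * T 1) * h1

lemma not_X_cube_dvd_theta_badPoly (p N : ℕ) [Fact p.Prime] (hN : p ∣ N) :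
    ¬ (X : (ZMod p)⟦X⟧) ^ 3 ∣ theta p (badPoly N) := by
  have h : theta p (badPoly N) = X ^ 2 := by
    rw [badPoly, map_add, map_mul, map_pow, map_sub, map_one, theta_C, theta_T_one]
    have : ((N : ℤ) : (ZMod p)⟦X⟧) = 0 := by
      have h1 : ((N : ℤ) : ZMod p) = 0 := by
        rw [Int.cast_natCast, ZMod.natCast_eq_zero_iff]; exact hN
      have h2 : ((N : ℤ) : (ZMod p)⟦X⟧) = PowerSeries.C ((N : ℤ) : ZMod p) := by simp
      rw [h2, h1, map_zero]
    rw [this]
    ring
  rw [h, X_pow_dvd_iff]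
  intro h3
  have := h3 2 (by norm_num)
  simp at this

end core

end Pool.Agent.MP31b0c0
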