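import Mathlib

namespace Pool.Agent.MP31b0c0

section grp

variable {T : Type} [AddCommGroup T]

/-- If `V` is a finite-dimensional vector space without a surjection onto `F ^ 3`, it is spanned
by two vectors. -/
lemma exists_span_pair {F V : Type*} [Field F] [AddCommGroup V] [Module F V]
    [Module.Finite F V] (h : ∀ φ : V →ₗ[F] (Fin 3 → F), ¬ Function.Surjective φ) :
    ∃ x y : V, Submodule.span F {x, y} = ⊤ := by
  have hd : Module.finrank F V ≤ 2 := by
    by_contra hcon
    push Not at hcon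
    have h3 : 3 ≤ Module.finrank F V := hcon
    let b := Module.finBasis F V
    let φ : V →ₗ[F] (Fin 3 → F) :=
      (LinearMap.funLeft F F (Fin.castLE h3)).comp (b.equivFun : V →ₗ[F] (Fin _ → F))
    refine h φ ?_
    have h1 : Function.Surjective (LinearMap.funLeft F F (Fin.castLE h3)) :=
      LinearMap.funLeft_surjective_of_injective F F _ (Fin.castLE_injective h3)
    exact h1.comp b.equivFun.surjective
  let b := Module.finBasis F V
  refine ⟨if h0 : 0 < Module.finrank F V then b ⟨0, h0⟩ else 0,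
    if h1 : 1 < Module.finrank F V then b ⟨1, h1⟩ else 0, ?_⟩
  rw [eq_top_iff, ← b.span_eq, Submodule.span_le]
  rintro _ ⟨⟨i, hi⟩, rfl⟩
  have hi2 : i = 0 ∨ i = 1 := by omega
  rcases hi2 with rfl | rfl
  · apply Submodule.subset_span
    simp [hi]
  · apply Submodule.subset_span
    simp [hi]

/-- The subgroup `p T`. -/
def pT (T : Type) [AddCommGroup T] (p : ℕ) : AddSubgroup T := (nsmulAddMonoidHom (α := T) p).range

lemma mem_pT {p : ℕ} {x : T} : x ∈ pT T p ↔ ∃ y, p • y = x := Iff.rfl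

lemma exists_pair_of_torsion {V : Type} [AddCommGroup V] [Finite V] (p : ℕ) [Fact p.Prime]
    (hp : ∀ x : V, p • x = 0) (h : ∀ φ : V →+ (Fin 3 → ZMod p), ¬ Function.Surjective φ) :
    ∃ x y : V, ∀ t : V, ∃ a b : ℕ, a • x + b • y = t := by
  obtain ⟨inst⟩ : Nonempty (Module (ZMod p) V) := ⟨AddCommGroup.zmodModule hp⟩
  have hfin : Module.Finite (ZMod p) V := Module.Finite.of_finite
  have hno : ∀ φ : V →ₗ[ZMod p] (Fin 3 → ZMod p), ¬ Function.Surjective φ := by
    intro φ hφ
    exact h φ.toAddMonoidHom hφ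
  obtain ⟨x, y, hxy⟩ := exists_span_pair hno
  refine ⟨x, y, fun t => ?_⟩
  have ht : t ∈ Submodule.span (ZMod p) {x, y} := by
    rw [hxy]; trivial
  rw [Submodule.mem_span_pair] at ht
  obtain ⟨a, b, hab⟩ := ht
  refine ⟨a.val, b.val, ?_⟩
  rw [← hab]
  congr 1
  · rw [← Nat.cast_smul_eq_nsmul (ZMod p), ZMod.natCast_zmod_val]
  · rw [← Nat.cast_smul_eq_nsmul (ZMod p), ZMod.natCast_zmod_val]

/-- For a prime `p` such that `T` has no epimorphism to `(ℤ/p)³`, the group `T` is generated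
by two elements modulo `p T`. -/
lemma exists_pair_mod (p : ℕ) [Fact p.Prime] [Finite T]
    (h : ∀ φ : T →+ (Fin 3 → ZMod p), ¬ Function.Surjective φ) :
    ∃ x y : T, AddSubgroup.closure {x, y} ⊔ pT T p = ⊤ := by
  have hp : ∀ x : T ⧸ pT T p, p • x = 0 := by
    intro x
    obtain ⟨y, rfl⟩ := QuotientAddGroup.mk_surjective x
    rw [← QuotientAddGroup.mk_nsmul, QuotientAddGroup.eq_zero_iff]
    exact ⟨y, rfl⟩
  obtain ⟨x, y, hxy⟩ := exists_pair_of_torsion p hp (fun φ hφ =>
    h (φ.comp (QuotientAddGroup.mk' (pT T p))) (hφ.comp (QuotientAddGroup.mk'_surjective _)))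
  obtain ⟨x, rfl⟩ := QuotientAddGroup.mk_surjective x
  obtain ⟨y, rfl⟩ := QuotientAddGroup.mk_surjective y
  refine ⟨x, y, ?_⟩
  rw [eq_top_iff]
  intro t _
  obtain ⟨a, b, hab⟩ := hxy t
  have h1 : ((a • x + b • y : T) : T ⧸ pT T p) = (t : T ⧸ pT T p) := by
    rw [← hab, QuotientAddGroup.mk_add, QuotientAddGroup.mk_nsmul, QuotientAddGroup.mk_nsmul]
  rw [QuotientAddGroup.eq] at h1
  have h2 : t = (a • x + b • y) + (-(a • x + b • y) + t) := by abel
  rw [h2]
  refine AddSubgroup.add_mem_sup ?_ h1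
  refine AddSubgroup.add_mem _ (AddSubgroup.nsmul_mem _ (AddSubgroup.subset_closure (by simp)) _)
    (AddSubgroup.nsmul_mem _ (AddSubgroup.subset_closure (by simp)) _)

/-- If a subgroup `S` of the finite abelian group `T` satisfies `S + p T = T` for every prime `p`
then `S = T`. -/
lemma eq_top_of_forall_prime [Finite T] (S : AddSubgroup T)
    (h : ∀ p : ℕ, p.Prime → S ⊔ pT T p = ⊤) : S = ⊤ := by
  by_contra hne
  have h1 : Nat.card (T ⧸ S) ≠ 1 := by
    intro h1
    exact hne (AddSubgroup.index_eq_one.1 h1)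
  obtain ⟨p, hp, hpd⟩ := Nat.exists_prime_and_dvd h1
  have : Fact p.Prime := ⟨hp⟩
  obtain ⟨x, hx⟩ := exists_prime_addOrderOf_dvd_card' p hpd
  -- multiplication by `p` on `T ⧸ S` is surjective
  have hsurj : Function.Surjective (fun z : T ⧸ S => p • z) := by
    intro z
    obtain ⟨t, rfl⟩ := QuotientAddGroup.mk_surjective z
    have ht : t ∈ S ⊔ pT T p := by rw [h p hp]; trivial
    obtain ⟨s, hs, u, ⟨y, hy⟩, hsu⟩ := AddSubgroup.mem_sup.1 ht
    refine ⟨(y : T ⧸ S), ?_⟩
    change p • (y : T ⧸ S) = _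
    rw [← QuotientAddGroup.mk_nsmul, QuotientAddGroup.eq]
    have hy' : p • y = u := hy
    rw [hy', ← hsu]
    have : -u + (s + u) = s := by abel
    rw [this]
    exact hs
  have hinj : Function.Injective (fun z : T ⧸ S => p • z) :=
    Finite.injective_iff_surjective.2 hsurj
  have hx0 : p • x = 0 := by rw [← hx]; exact addOrderOf_nsmul_eq_zero x
  have : x = 0 := hinj (by simpa using hx0)
  rw [this, addOrderOf_zero] at hx
  exact hp.one_lt.ne hx

/-- A finite abelian group which is not generated by two elements has, for some prime `p`, an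
epimorphism to `(ℤ/p)³`. -/
theorem exists_surjection [Finite T] (h : ∀ a b : T, AddSubgroup.closure {a, b} ≠ ⊤) :
    ∃ p : ℕ, p.Prime ∧ ∃ φ : T →+ (Fin 3 → ZMod p), Function.Surjective φ := by
  by_contra hcon
  push Not at hcon
  have h1 : ∀ p : ℕ, ∃ xy : T × T, p.Prime → AddSubgroup.closure {xy.1, xy.2} ⊔ pT T p = ⊤ := by
    intro p
    by_cases hp : p.Prime
    · have : Fact p.Prime := ⟨hp⟩
      obtain ⟨x, y, hxy⟩ := exists_pair_mod p (hcon p hp)
      exact ⟨(x, y), fun _ => hxy⟩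
    · exact ⟨(0, 0), fun h => absurd h hp⟩
  choose xy hxy using h1
  -- primes dividing the order of `T`
  let N := Nat.card T
  let Ps := N.primeFactors
  let c : ℕ → ℕ := fun p => (∏ q ∈ Ps.erase p, q) ^ (p - 1)
  have hc1 : ∀ p ∈ Ps, ∃ k : ℕ, c p = 1 + p * k := by
    intro p hp
    have hpp : p.Prime := Nat.prime_of_mem_primeFactors hp
    have hcop : (∏ q ∈ Ps.erase p, q).Coprime p := by
      refine Nat.Coprime.prod_left fun q hq => ?_
      have hq' : q ∈ Ps := Finset.mem_of_mem_erase hq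
      exact (Nat.coprime_primes (Nat.prime_of_mem_primeFactors hq') hpp).2
        (Finset.ne_of_mem_erase hq)
    have h2 : c p ≡ 1 [MOD p] := by
      have := Nat.ModEq.pow_totient hcop
      rwa [Nat.totient_prime hpp] at this
    have hpos : 1 ≤ c p := by
      apply Nat.one_le_iff_ne_zero.2
      apply pow_ne_zero
      rw [Finset.prod_ne_zero_iff]
      intro q hq
      exact (Nat.prime_of_mem_primeFactors (Finset.mem_of_mem_erase hq)).ne_zero
    obtain ⟨k, hk⟩ := (Nat.modEq_iff_dvd' hpos).1 h2.symm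
    exact ⟨k, by omega⟩
  have hc2 : ∀ p ∈ Ps, ∀ q ∈ Ps, q ≠ p → p ∣ c q := by
    intro p hp q hq hqp
    have hqq : q.Prime := Nat.prime_of_mem_primeFactors hq
    apply dvd_pow
    · exact Finset.dvd_prod_of_mem _ (Finset.mem_erase.2 ⟨hqp.symm, hp⟩)
    · have := hqq.two_le
      omega
  have key : ∀ (f : ℕ → T) (p : ℕ), p ∈ Ps → (∑ q ∈ Ps, c q • f q) - f p ∈ pT T p := by
    intro f p hp
    obtain ⟨k, hk⟩ := hc1 p hp
    rw [← Finset.add_sum_erase Ps _ hp, hk, add_smul, one_smul, mul_smul]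
    have h2 : f p + p • k • f p + ∑ q ∈ Ps.erase p, c q • f q - f p =
        p • k • f p + ∑ q ∈ Ps.erase p, c q • f q := by abel
    rw [h2]
    refine AddSubgroup.add_mem _ ⟨_, rfl⟩ (AddSubgroup.sum_mem _ fun q hq => ?_)
    obtain ⟨l, hl⟩ := hc2 p hp q (Finset.mem_of_mem_erase hq) (Finset.ne_of_mem_erase hq)
    rw [hl, mul_smul]
    exact ⟨_, rfl⟩
  let a : T := ∑ q ∈ Ps, c q • (xy q).1
  let b : T := ∑ q ∈ Ps, c q • (xy q).2
  refine h a b (eq_top_of_forall_prime _ fun p hp => ?_)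
  by_cases hpN : p ∈ Ps
  · have h2 := hxy p hp
    rw [eq_top_iff, ← h2]
    refine sup_le ?_ le_sup_right
    rw [AddSubgroup.closure_le]
    have hmem : ∀ z w : T, z ∈ AddSubgroup.closure {a, b} → z - w ∈ pT T p →
        w ∈ AddSubgroup.closure {a, b} ⊔ pT T p := by
      intro z w hz hzw
      have h3 : w = z + -(z - w) := by abel
      rw [h3]
      exact AddSubgroup.add_mem_sup hz (AddSubgroup.neg_mem _ hzw)
    rintro z (rfl | rfl)
    · exact hmem a _ (AddSubgroup.subset_closure (by simp)) (key (fun q => (xy q).1) p hpN)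
    · exact hmem b _ (AddSubgroup.subset_closure (by simp)) (key (fun q => (xy q).2) p hpN)
  · have h2 : (Nat.card T).Coprime p := by
      rw [Nat.coprime_comm, Nat.Prime.coprime_iff_not_dvd hp]
      intro hd
      exact hpN (Nat.mem_primeFactors.2 ⟨hp, hd, Nat.card_pos.ne'⟩)
    rw [eq_top_iff]
    intro t _
    refine AddSubgroup.mem_sup_right ?_
    exact ⟨(nsmulCoprime h2).symm t, (nsmulCoprime h2).apply_symm_apply t⟩

end grp

end Pool.Agent.MP31b0c0
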