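import Mathlib

open CategoryTheory Limits AlgebraicTopology Simplicial

namespace Pool.Agent.MP31b0c0

section finsupp

variable {S S' : Type} (τ : S ≃ S) (π : S → S')

lemma zpow_orbit_injective (hfree : ∀ (n : ℤ) (x : S), (τ ^ n) x = x → n = 0) (x : S) :
    Function.Injective fun n : ℤ => (τ ^ n) x := by
  intro a b hab
  have : (τ ^ (a - b)) x = x := by
    have h1 : (τ ^ (a - b)) x = (τ ^ (-b)) ((τ ^ a) x) := by
      rw [← Equiv.Perm.mul_apply, ← zpow_add]; congr 2; ring
    rw [h1]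
    change (τ ^ a) x = (τ ^ b) x at hab
    rw [hab, ← Equiv.Perm.mul_apply, ← zpow_add]
    simp
  have := hfree _ _ this
  omega

lemma mapDomain_sub_id_injective (hfree : ∀ (n : ℤ) (x : S), (τ ^ n) x = x → n = 0) :
    Function.Injective (Finsupp.lmapDomain ℤ ℤ τ - LinearMap.id : (S →₀ ℤ) →ₗ[ℤ] (S →₀ ℤ)) := by
  rw [← LinearMap.ker_eq_bot, LinearMap.ker_eq_bot']
  intro v hv
  have h0 : Finsupp.mapDomain τ v = v := by
    have : Finsupp.mapDomain τ v - v = 0 := hv
    exact sub_eq_zero.1 this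
  have h1 : ∀ x, v (τ x) = v x := by
    intro x
    conv_lhs => rw [← h0]
    exact Finsupp.mapDomain_apply τ.injective v x
  have h2 : ∀ (n : ℤ) x, v ((τ ^ n) x) = v x := by
    intro n
    induction n using Int.induction_on with
    | zero => simp
    | succ i ih =>
      intro x
      rw [add_comm, zpow_add, Equiv.Perm.mul_apply, zpow_one, h1, ih]
    | pred i ih =>
      intro x
      have := h1 ((τ ^ (-(i : ℤ) - 1)) x)
      rw [← this, ← ih x]
      congr 1
      have h3 : τ ^ (-(i : ℤ)) = τ ^ (1 + (-(i : ℤ) - 1)) := by congr 1; ring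
      rw [h3, zpow_add, Equiv.Perm.mul_apply, zpow_one]
  by_contra hne
  obtain ⟨x, hx⟩ := Finsupp.ne_iff.1 hne
  have hinf : Set.Infinite (Set.range fun n : ℤ => (τ ^ n) x) :=
    Set.infinite_range_of_injective (zpow_orbit_injective τ hfree x)
  apply hinf
  refine Set.Finite.subset v.support.finite_toSet ?_
  rintro _ ⟨n, rfl⟩
  simp only [Finset.mem_coe, Finsupp.mem_support_iff]
  rw [h2]
  simpa using hx

lemma single_sub_single_mem_range (n : ℤ) (x : S) :
    Finsupp.single ((τ ^ n) x) (1 : ℤ) - Finsupp.single x 1 ∈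
      LinearMap.range (Finsupp.lmapDomain ℤ ℤ τ - LinearMap.id : (S →₀ ℤ) →ₗ[ℤ] (S →₀ ℤ)) := by
  have hstep : ∀ y : S, Finsupp.single (τ y) (1 : ℤ) - Finsupp.single y 1 ∈
      LinearMap.range (Finsupp.lmapDomain ℤ ℤ τ - LinearMap.id :
        (S →₀ ℤ) →ₗ[ℤ] (S →₀ ℤ)) := by
    intro y
    exact ⟨Finsupp.single y 1, by simp⟩
  induction n using Int.induction_on with
  | zero => simp
  | succ i ih =>
    have h3 : (τ ^ ((i : ℤ) + 1)) x = τ ((τ ^ (i : ℤ)) x) := by
      rw [add_comm, zpow_add, Equiv.Perm.mul_apply, zpow_one]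
    rw [h3]
    have := Submodule.add_mem _ (hstep ((τ ^ (i : ℤ)) x)) ih
    simpa using this
  | pred i ih =>
    have h3 : (τ ^ (-(i : ℤ))) x = τ ((τ ^ (-(i : ℤ) - 1)) x) := by
      have h3 : τ ^ (-(i : ℤ)) = τ ^ (1 + (-(i : ℤ) - 1)) := by congr 1; ring
      rw [h3, zpow_add, Equiv.Perm.mul_apply, zpow_one]
    rw [h3] at ih
    have := Submodule.sub_mem _ ih (hstep ((τ ^ (-(i : ℤ) - 1)) x))
    simpa using this

lemma mem_range_of_mapDomain_eq_zero (hsurj : Function.Surjective π)
    (horb : ∀ x y, π x = π y → ∃ n : ℤ, (τ ^ n) x = y) (v : S →₀ ℤ)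
    (hv : Finsupp.mapDomain π v = 0) :
    v ∈ LinearMap.range (Finsupp.lmapDomain ℤ ℤ τ - LinearMap.id :
      (S →₀ ℤ) →ₗ[ℤ] (S →₀ ℤ)) := by
  obtain ⟨σ, hσ⟩ := hsurj.hasRightInverse
  have key : ∀ v : S →₀ ℤ, v - Finsupp.mapDomain σ (Finsupp.mapDomain π v) ∈
      LinearMap.range (Finsupp.lmapDomain ℤ ℤ τ - LinearMap.id :
        (S →₀ ℤ) →ₗ[ℤ] (S →₀ ℤ)) := by
    intro v
    induction v using Finsupp.induction_linear with
    | zero => simp
    | add f g hf hg =>
      have := Submodule.add_mem _ hf hg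
      rw [Finsupp.mapDomain_add, Finsupp.mapDomain_add]
      convert this using 1
      abel
    | single x a =>
      rw [Finsupp.mapDomain_single, Finsupp.mapDomain_single]
      obtain ⟨n, hn⟩ := horb (σ (π x)) x (hσ (π x))
      have := Submodule.smul_mem _ a (single_sub_single_mem_range τ n (σ (π x)))
      rw [hn] at this
      simpa [smul_sub] using this
  have := key v
  rw [hv] at this
  simpa using this

end finsupp


section chains

/-- Coefficients. -/
noncomputable abbrev RZ : ModuleCat.{0} ℤ := ModuleCat.of ℤ ℤ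

variable (X Y : SSet.{0})

/-- Chains as finitely supported functions (one direction). -/
noncomputable def toFin (n : ℕ) :
    (X.chainComplex RZ).X n ⟶ ModuleCat.of ℤ (X _⦋n⦌ →₀ ℤ) :=
  Cofan.IsColimit.desc (X.isColimitChainComplexXCofan RZ n)
    (fun x => ModuleCat.ofHom (Finsupp.lsingle x))

/-- Chains as finitely supported functions (other direction). -/
noncomputable def ofFin (n : ℕ) :
    ModuleCat.of ℤ (X _⦋n⦌ →₀ ℤ) ⟶ (X.chainComplex RZ).X n :=
  ModuleCat.ofHom (Finsupp.linearCombination ℤ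
    (fun x => (X.ιChainComplex (R := RZ) x).hom (1 : ℤ)))

lemma ι_toFin (n : ℕ) (x : X _⦋n⦌) :
    X.ιChainComplex (R := RZ) x ≫ toFin X n = ModuleCat.ofHom (Finsupp.lsingle x) :=
  Cofan.IsColimit.fac (X.isColimitChainComplexXCofan RZ n) _ x

lemma lsingle_ofFin (n : ℕ) (x : X _⦋n⦌) :
    ModuleCat.ofHom (Finsupp.lsingle x) ≫ ofFin X n = X.ιChainComplex (R := RZ) x := by
  ext
  change (Finsupp.linearCombination ℤ
    (fun x => (X.ιChainComplex (R := RZ) x).hom (1 : ℤ))) (Finsupp.single x 1) = _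
  rw [Finsupp.linearCombination_single]
  exact @one_smul ℤ _ _ ((X.chainComplex RZ).X n).isModule.toMulAction _

lemma finsupp_hom_ext {S : Type} {M : ModuleCat.{0} ℤ} {f g : ModuleCat.of ℤ (S →₀ ℤ) ⟶ M}
    (h : ∀ x, ModuleCat.ofHom (Finsupp.lsingle (R := ℤ) x) ≫ f =
      ModuleCat.ofHom (Finsupp.lsingle x) ≫ g) :
    f = g := by
  ext : 1
  apply Finsupp.lhom_ext'
  intro x
  have := congrArg ModuleCat.Hom.hom (h x)
  simpa using this

/-- Chains as finitely supported functions. -/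
noncomputable def finIso (n : ℕ) :
    (X.chainComplex RZ).X n ≅ ModuleCat.of ℤ (X _⦋n⦌ →₀ ℤ) where
  hom := toFin X n
  inv := ofFin X n
  hom_inv_id := by
    apply SSet.chainComplex_hom_ext
    intro x
    rw [← Category.assoc, ι_toFin, lsingle_ofFin, Category.comp_id]
  inv_hom_id := by
    apply finsupp_hom_ext
    intro x
    rw [← Category.assoc, lsingle_ofFin, ι_toFin, Category.comp_id]

variable {X Y}

lemma map_toFin (f : X ⟶ Y) (n : ℕ) :
    (SSet.chainComplexMap f RZ).f n ≫ toFin Y n =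
      toFin X n ≫ ModuleCat.ofHom (Finsupp.lmapDomain ℤ ℤ (f.app (Opposite.op ⦋n⦌))) := by
  apply SSet.chainComplex_hom_ext
  intro x
  rw [← Category.assoc, SSet.ι_chainComplexMap_f, ι_toFin, ← Category.assoc, ι_toFin]
  ext
  simp

lemma ofFin_map (f : X ⟶ Y) (n : ℕ) :
    ofFin X n ≫ (SSet.chainComplexMap f RZ).f n =
      ModuleCat.ofHom (Finsupp.lmapDomain ℤ ℤ (f.app (Opposite.op ⦋n⦌))) ≫ ofFin Y n := by
  have h := map_toFin f n
  have h1 : ofFin X n ≫ toFin X n = 𝟙 _ := (finIso X n).inv_hom_id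
  have h2 : toFin Y n ≫ ofFin Y n = 𝟙 _ := (finIso Y n).hom_inv_id
  calc ofFin X n ≫ (SSet.chainComplexMap f RZ).f n
      = ofFin X n ≫ ((SSet.chainComplexMap f RZ).f n ≫ toFin Y n) ≫ ofFin Y n := by
        rw [Category.assoc, h2, Category.comp_id]
    _ = _ := by rw [h, ← Category.assoc, ← Category.assoc, h1, Category.id_comp]

/-- The hypotheses saying that `π : X → Y` is the quotient of the simplicial set `X` by the free
action of `ℤ` generated by `τ`. -/
structure IsFreeZQuotient (τ : X ⟶ X) (π : X ⟶ Y)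
    (t : ∀ n : ℕ, Equiv.Perm (X _⦋n⦌)) : Prop where
  comm : τ ≫ π = π
  t_eq : ∀ (n : ℕ) (x : X _⦋n⦌), τ.app (Opposite.op ⦋n⦌) x = t n x
  surj : ∀ n : ℕ, Function.Surjective (π.app (Opposite.op ⦋n⦌))
  free : ∀ (n : ℕ) (k : ℤ) (x : X _⦋n⦌), (t n ^ k) x = x → k = 0
  orbit : ∀ (n : ℕ) (x y : X _⦋n⦌), π.app (Opposite.op ⦋n⦌) x = π.app (Opposite.op ⦋n⦌) y →
    ∃ k : ℤ, (t n ^ k) x = y

variable {τ : X ⟶ X} {π : X ⟶ Y} {t : ∀ n : ℕ, Equiv.Perm (X _⦋n⦌)}

/-- The short complex `C(X) → C(X) → C(Y)` with first map `τ - 1`. -/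
noncomputable def wangSC (h : IsFreeZQuotient τ π t) : ShortComplex (ChainComplex (ModuleCat.{0} ℤ) ℕ) :=
  ShortComplex.mk (SSet.chainComplexMap τ RZ - 𝟙 (X.chainComplex RZ)) (SSet.chainComplexMap π RZ) (by
    rw [Preadditive.sub_comp, Category.id_comp, sub_eq_zero]
    rw [← Functor.map_comp, h.comm])

/-- The finitely supported version in a fixed degree. -/
noncomputable def finSC (h : IsFreeZQuotient τ π t) (n : ℕ) : ShortComplex (ModuleCat.{0} ℤ) :=
  ShortComplex.mk
    (ModuleCat.ofHom (Finsupp.lmapDomain ℤ ℤ (t n) - LinearMap.id :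
      (X _⦋n⦌ →₀ ℤ) →ₗ[ℤ] (X _⦋n⦌ →₀ ℤ)))
    (ModuleCat.ofHom (Finsupp.lmapDomain ℤ ℤ (π.app (Opposite.op ⦋n⦌)))) (by
      apply finsupp_hom_ext
      intro x
      apply ModuleCat.hom_ext
      apply LinearMap.ext_ring
      have h1 : π.app (Opposite.op ⦋n⦌) (t n x) = π.app (Opposite.op ⦋n⦌) x := by
        rw [← h.t_eq]
        exact congrArg (fun f => f.app (Opposite.op ⦋n⦌) x) h.comm
      change Finsupp.mapDomain _ (Finsupp.mapDomain _ (Finsupp.single x (1 : ℤ)) -
        Finsupp.single x 1) = 0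
      rw [Finsupp.mapDomain_single, ← Finsupp.lmapDomain_apply ℤ ℤ, map_sub,
        Finsupp.lmapDomain_apply, Finsupp.lmapDomain_apply, Finsupp.mapDomain_single,
        Finsupp.mapDomain_single, h1, sub_self])

lemma finSC_shortExact (h : IsFreeZQuotient τ π t) (n : ℕ) : (finSC h n).ShortExact where
  exact := by
    rw [ShortComplex.moduleCat_exact_iff]
    intro v hv
    exact mem_range_of_mapDomain_eq_zero (t n) _ (h.surj n) (h.orbit n) v hv
  mono_f := by
    rw [ModuleCat.mono_iff_injective]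
    exact mapDomain_sub_id_injective (t n) (h.free n)
  epi_g := by
    rw [ModuleCat.epi_iff_surjective]
    exact Finsupp.mapDomain_surjective (h.surj n)

lemma wangSC_shortExact (h : IsFreeZQuotient τ π t) : (wangSC h).ShortExact := by
  apply HomologicalComplex.shortExact_of_degreewise_shortExact
  intro n
  refine ShortComplex.shortExact_of_iso (ShortComplex.isoMk (finIso X n).symm (finIso X n).symm
    (finIso Y n).symm ?_ ?_) (finSC_shortExact h n)
  · change ofFin X n ≫ ((SSet.chainComplexMap τ RZ).f n - 𝟙 _) =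
      ModuleCat.ofHom (Finsupp.lmapDomain ℤ ℤ (t n) - LinearMap.id) ≫ ofFin X n
    have h1 : (⇑(ConcreteCategory.hom (τ.app (Opposite.op ⦋n⦌))) : X _⦋n⦌ → X _⦋n⦌) = t n := by
      funext x; exact h.t_eq n x
    have h2 : ModuleCat.ofHom (Finsupp.lmapDomain ℤ ℤ (t n) - LinearMap.id :
        (X _⦋n⦌ →₀ ℤ) →ₗ[ℤ] (X _⦋n⦌ →₀ ℤ)) =
        ModuleCat.ofHom (Finsupp.lmapDomain ℤ ℤ (t n)) - 𝟙 _ := rfl
    rw [h2, Preadditive.comp_sub, ofFin_map, Category.comp_id, Preadditive.sub_comp,
      Category.id_comp, h1]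
  · exact ofFin_map π n

end chains

section les

variable {X Y : SSet.{0}}

lemma homology₀_hom_ext {M : ModuleCat.{0} ℤ} {f g : X.homology RZ 0 ⟶ M}
    (h : ∀ x : X _⦋0⦌, (X.chainComplex RZ).liftCycles (X.ιChainComplex x) 0 (by simp) (by simp) ≫
      (X.chainComplex RZ).homologyπ 0 ≫ f =
      (X.chainComplex RZ).liftCycles (X.ιChainComplex x) 0 (by simp) (by simp) ≫
      (X.chainComplex RZ).homologyπ 0 ≫ g) : f = g := by
  rw [← cancel_epi ((X.chainComplex RZ).homologyπ 0)]
  have hiso : IsIso ((X.chainComplex RZ).iCycles 0) :=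
    HomologicalComplex.isIso_iCycles _ 0 0 (by simp) (by simp)
  rw [← cancel_epi (inv ((X.chainComplex RZ).iCycles 0))]
  apply SSet.chainComplex_hom_ext
  intro x
  have h1 : (X.chainComplex RZ).liftCycles (X.ιChainComplex x) 0 (by simp) (by simp) =
      X.ιChainComplex x ≫ inv ((X.chainComplex RZ).iCycles 0) := by
    rw [IsIso.eq_comp_inv, HomologicalComplex.liftCycles_i]
  have h2 := h x
  rw [h1] at h2
  simpa using h2

lemma homologyMap_homology₀ε (f : X ⟶ Y) :
    SSet.homologyMap f RZ 0 ≫ Y.homology₀ε RZ = X.homology₀ε RZ := by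
  apply homology₀_hom_ext
  intro x
  rw [SSet.liftCycles_ιChainComplex_homologyπ_homology₀ε X RZ x]
  rw [SSet.homologyMap, HomologicalComplex.homologyπ_naturality_assoc,
    HomologicalComplex.liftCycles_comp_cyclesMap_assoc]
  have : ∀ (k : RZ ⟶ (Y.chainComplex RZ).X 0) (hk : k = Y.ιChainComplex (f.app _ x))
      (h1) (h2), (Y.chainComplex RZ).liftCycles k 0 h1 h2 ≫
        (Y.chainComplex RZ).homologyπ 0 ≫ Y.homology₀ε RZ = 𝟙 _ := by
    rintro k rfl h1 h2
    exact SSet.liftCycles_ιChainComplex_homologyπ_homology₀ε Y RZ _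
  apply this
  exact SSet.ι_chainComplexMap_f X Y f RZ x

lemma homologyMap_zero_eq_id [X.IsConnected] (f : X ⟶ X) : SSet.homologyMap f RZ 0 = 𝟙 _ := by
  rw [← cancel_mono (X.homology₀ε RZ), homologyMap_homology₀ε, Category.id_comp]

variable {τ : X ⟶ X} {π : X ⟶ Y} {t : ∀ n : ℕ, Equiv.Perm (X _⦋n⦌)}

lemma homologyMap_sub_one (n : ℕ) (τ : X ⟶ X) :
    HomologicalComplex.homologyMap (SSet.chainComplexMap τ RZ - 𝟙 (X.chainComplex RZ)) n =
      SSet.homologyMap τ RZ n - 𝟙 (X.homology RZ n) := by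
  rw [HomologicalComplex.homologyMap_sub, HomologicalComplex.homologyMap_id]

/-- Exactness at `H_n(X)`. -/
lemma wang_exact₂ (h : IsFreeZQuotient τ π t) (n : ℕ) (a : (X.homology RZ n : ModuleCat.{0} ℤ))
    (ha : (SSet.homologyMap π RZ n).hom a = 0) :
    ∃ b, (SSet.homologyMap τ RZ n).hom b - b = a := by
  have hS := (wangSC_shortExact h).homology_exact₂ n
  rw [ShortComplex.moduleCat_exact_iff] at hS
  obtain ⟨b, hb⟩ := hS a ha
  refine ⟨b, ?_⟩
  rw [← hb]
  change _ = (HomologicalComplex.homologyMap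
    (SSet.chainComplexMap τ RZ - 𝟙 (X.chainComplex RZ)) n).hom b
  rw [homologyMap_sub_one]
  rfl

/-- Exactness at `H_{n+1}(Y)`. -/
lemma wang_exact₃ (h : IsFreeZQuotient τ π t) (i j : ℕ) (hij : (ComplexShape.down ℕ).Rel i j)
    (a : (Y.homology RZ i : ModuleCat.{0} ℤ)) (ha : ((wangSC_shortExact h).δ i j hij).hom a = 0) :
    ∃ b, (SSet.homologyMap π RZ i).hom b = a := by
  have hS := (wangSC_shortExact h).homology_exact₃ i j hij
  rw [ShortComplex.moduleCat_exact_iff] at hS
  exact hS a ha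

lemma wang_comp₃ (h : IsFreeZQuotient τ π t) (i j : ℕ) (hij : (ComplexShape.down ℕ).Rel i j)
    (b : (X.homology RZ i : ModuleCat.{0} ℤ)) :
    ((wangSC_shortExact h).δ i j hij).hom ((SSet.homologyMap π RZ i).hom b) = 0 := by
  have := (wangSC_shortExact h).comp_δ i j hij
  exact congrArg (fun f => f.hom b) this

/-- Exactness at the second `H_0(X)` when `X` is connected. -/
lemma wang_exact₁ [X.IsConnected] (h : IsFreeZQuotient τ π t) (a : (X.homology RZ 0 : ModuleCat.{0} ℤ)) :
    ∃ b, ((wangSC_shortExact h).δ 1 0 (by simp)).hom b = a := by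
  have hS := (wangSC_shortExact h).homology_exact₁ 1 0 (by simp)
  rw [ShortComplex.moduleCat_exact_iff] at hS
  refine hS a ?_
  change (HomologicalComplex.homologyMap
    (SSet.chainComplexMap τ RZ - 𝟙 (X.chainComplex RZ)) 0).hom a = 0
  rw [homologyMap_sub_one, homologyMap_zero_eq_id, sub_self]
  rfl

end les

section covering

variable {E M : Type} [TopologicalSpace E] [TopologicalSpace M]

/-- Lifting of maps from contractible spaces through surjective covering maps. -/
lemma exists_lift_of_contractible {A : Type*} [TopologicalSpace A] [ContractibleSpace A]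
    {p : E → M} (hp : IsCoveringMap p) (hsurj : Function.Surjective p) (σ : C(A, M)) :
    ∃ F : C(A, E), ∀ a, p (F a) = σ a := by
  obtain ⟨y, ⟨H⟩⟩ := id_nullhomotopic A
  let H' : C(unitInterval × A, M) := σ.comp H.symm.toContinuousMap
  obtain ⟨e, he⟩ := hsurj (σ y)
  have h0 : ∀ a, H' (0, a) = p ((ContinuousMap.const A e) a) := by
    intro a
    simp [H', he]
  refine ⟨(hp.liftHomotopy H' (ContinuousMap.const A e) h0).comp
    ((ContinuousMap.const A (1 : unitInterval)).prodMk (ContinuousMap.id A)), ?_⟩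
  intro a
  have := congrFun (hp.liftHomotopy_lifts H' (ContinuousMap.const A e) h0) (1, a)
  simp only [Function.comp_apply] at this
  rw [ContinuousMap.comp_apply]
  refine this.trans ?_
  simp [H']

instance contractible_toTop (n : ℕ) :
    ContractibleSpace (SimplexCategory.toTop.{0}.obj ⦋n⦌) := by
  have h1 : ContractibleSpace (stdSimplex ℝ (Fin (n + 1))) :=
    (convex_stdSimplex ℝ (Fin (n + 1))).contractibleSpace ⟨_, single_mem_stdSimplex ℝ 0⟩
  exact (Homeomorph.ulift (X := stdSimplex ℝ (Fin (n + 1)))).contractibleSpace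


/-- The continuous map underlying a singular simplex. -/
noncomputable def sing {E : Type} [TopologicalSpace E] {n : ℕ}
    (x : (TopCat.toSSet.obj (TopCat.of E)) _⦋n⦌) :
    C(SimplexCategory.toTop.{0}.obj ⦋n⦌, E) :=
  TopCat.Hom.hom (X := SimplexCategory.toTop.{0}.obj ⦋n⦌) (Y := TopCat.of E) (ULift.down x)

/-- The singular simplex attached to a continuous map. -/
noncomputable def ofSing {E : Type} [TopologicalSpace E] {n : ℕ}
    (f : C(SimplexCategory.toTop.{0}.obj ⦋n⦌, E)) :
    (TopCat.toSSet.obj (TopCat.of E)) _⦋n⦌ :=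
  ULift.up (TopCat.ofHom f)

lemma sing_ofSing {n : ℕ} (f : C(SimplexCategory.toTop.{0}.obj ⦋n⦌, E)) : sing (ofSing f) = f := rfl

lemma ofSing_sing {n : ℕ} (x : (TopCat.toSSet.obj (TopCat.of E)) _⦋n⦌) : ofSing (sing x) = x := rfl

lemma sing_injective {n : ℕ} {x y : (TopCat.toSSet.obj (TopCat.of E)) _⦋n⦌}
    (h : ∀ a, sing x a = sing y a) : x = y := by
  rw [← ofSing_sing x, ← ofSing_sing y]
  congr 1
  ext a
  exact h a

lemma sing_map {n : ℕ} (f : C(E, M)) (x : (TopCat.toSSet.obj (TopCat.of E)) _⦋n⦌) (a) :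
    sing ((TopCat.toSSet.map (TopCat.ofHom f)).app (Opposite.op ⦋n⦌) x) a = f (sing x a) := rfl

/-- The action of the homeomorphism group on singular simplices. -/
noncomputable def simplexAct (E : Type) [TopologicalSpace E] (n : ℕ) :
    (E ≃ₜ E) →* Equiv.Perm ((TopCat.toSSet.obj (TopCat.of E)) _⦋n⦌) where
  toFun g :=
    { toFun := fun x => ofSing ((⟨g, g.continuous⟩ : C(E, E)).comp (sing x))
      invFun := fun x => ofSing ((⟨g.symm, g.symm.continuous⟩ : C(E, E)).comp (sing x))
      left_inv := by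
        intro x
        apply sing_injective
        intro a
        simp [sing_ofSing]
      right_inv := by
        intro x
        apply sing_injective
        intro a
        simp [sing_ofSing] }
  map_one' := by
    ext x : 1
    apply sing_injective
    intro a
    simp [sing_ofSing]
  map_mul' g h := by
    ext x : 1
    apply sing_injective
    intro a
    simp [sing_ofSing]

lemma sing_simplexAct (n : ℕ) (g : E ≃ₜ E) (x : (TopCat.toSSet.obj (TopCat.of E)) _⦋n⦌) (a) :
    sing (simplexAct E n g x) a = g (sing x a) := rfl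

omit [TopologicalSpace M] in
lemma proj_zpow {p : E → M} (g : E ≃ₜ E) (hg : ∀ e, p (g e) = p e) (k : ℤ) (e : E) :
    p ((g ^ k) e) = p e := by
  have hinv : ∀ e, p (g⁻¹ e) = p e := by
    intro e
    rw [← hg (g⁻¹ e)]
    congr 1
    exact g.apply_symm_apply e
  induction k using Int.induction_on generalizing e with
  | zero => rfl
  | succ i ih =>
    rw [zpow_add, zpow_one]
    change p ((g ^ (i : ℤ)) (g e)) = p e
    rw [ih, hg]
  | pred i ih =>
    rw [zpow_sub, zpow_one]
    change p ((g ^ (-(i : ℤ))) (g⁻¹ e)) = p e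
    rw [ih, hinv]

theorem isFreeZQuotient_of_covering {p : E → M} (hp : IsCoveringMap p)
    (hsurj : Function.Surjective p) (g : E ≃ₜ E) (hg : ∀ e, p (g e) = p e)
    (hfib : ∀ e e', p e = p e' → ∃! k : ℤ, (g ^ k) e = e') :
    IsFreeZQuotient (TopCat.toSSet.map (TopCat.ofHom ⟨g, g.continuous⟩))
      (TopCat.toSSet.map (TopCat.ofHom ⟨p, hp.continuous⟩)) (fun n => simplexAct E n g) where
  comm := by
    rw [← Functor.map_comp]
    congr 1
    ext a
    exact hg a
  t_eq n x := rfl
  surj n := by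
    intro y
    obtain ⟨F, hF⟩ := exists_lift_of_contractible hp hsurj (sing y)
    refine ⟨ofSing F, ?_⟩
    apply sing_injective
    intro a
    rw [sing_map, sing_ofSing]
    exact hF a
  free n k x hx := by
    obtain ⟨a⟩ : Nonempty (SimplexCategory.toTop.{0}.obj ⦋n⦌) := inferInstance
    rw [← map_zpow] at hx
    have h1 : (g ^ k) (sing x a) = sing x a := by
      rw [← sing_simplexAct, hx]
    obtain ⟨k', hk', huniq⟩ := hfib (sing x a) (sing x a) rfl
    rw [huniq k h1, huniq 0 rfl]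
  orbit n x y hxy := by
    obtain ⟨a⟩ : Nonempty (SimplexCategory.toTop.{0}.obj ⦋n⦌) := inferInstance
    have h1 : ∀ b, p (sing x b) = p (sing y b) := by
      intro b
      have := congrArg (fun z => sing z b) hxy
      exact this
    obtain ⟨k, hk, -⟩ := hfib (sing x a) (sing y a) (h1 a)
    refine ⟨k, ?_⟩
    rw [← map_zpow]
    have h2 := hp.eq_of_comp_eq (g₁ := fun b => (g ^ k) (sing x b)) (g₂ := fun b => sing y b)
      ((g ^ k).continuous.comp (sing x).continuous) (sing y).continuous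
      (by funext b; simp only [Function.comp_apply]; rw [proj_zpow g hg, h1]) a hk
    apply sing_injective
    intro b
    rw [sing_simplexAct]
    exact congrFun h2 b

end covering

end Pool.Agent.MP31b0c0
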