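import Mathlib
import Pool.Agent.Lib.MP_31b0c0_gt.Defs
import Pool.Agent.Lib.MP_31b0c0_gt.Alg
import Pool.Agent.Lib.MP_31b0c0_gt.Top

open CategoryTheory AlgebraicTopology LaurentPolynomial Simplicial

namespace Pool.Agent.MP31b0c0

lemma laurentHom_T_one {A : Type} [AddCommGroup A] [Module ℤ A] (τ : A ≃ₗ[ℤ] A) :
    laurentHom τ (T 1) = (τ : A →ₗ[ℤ] A) := by
  simp only [laurentHom, LaurentPolynomial.T]
  change (AddMonoidAlgebra.lift ℤ (Module.End ℤ A) ℤ _) (AddMonoidAlgebra.single 1 1) = _
  rw [AddMonoidAlgebra.lift_single, one_smul]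
  simp

/-- The Alexander module `H₁(M̃; ℤ)` of an infinite cyclic covering `M̃ → M`. -/
def AlexanderModule {M : Type} [TopologicalSpace M] (c : InfiniteCyclicCover M) : Type :=
  Hn 1 c.E

noncomputable instance {M : Type} [TopologicalSpace M] (c : InfiniteCyclicCover M) :
    AddCommGroup (AlexanderModule c) :=
  inferInstanceAs (AddCommGroup (Hn 1 c.E))

noncomputable instance {M : Type} [TopologicalSpace M] (c : InfiniteCyclicCover M) :
    Module ℤ[T;T⁻¹] (AlexanderModule c) := alexanderModule c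

variable {M : Type} [TopologicalSpace M]

lemma T_one_smul (c : InfiniteCyclicCover M) (a : AlexanderModule c) :
    (T 1 : ℤ[T;T⁻¹]) • a = HnMap 1 c.deck a := by
  change (laurentHom (HnMap 1 c.deck) (T 1)) a = _
  rw [laurentHom_T_one]
  rfl

/-- Coverings of locally path-connected spaces are locally path-connected. -/
lemma locallyPathConnected_cover {E M : Type} [TopologicalSpace E] [TopologicalSpace M]
    [LocallyPathConnectedSpace M] {p : E → M} (hp : IsLocalHomeomorph p) :
    LocallyPathConnectedSpace E := by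
  let _ : ChartedSpace M E :=
    { atlas := {e | ∃ x, e = (hp x).choose}
      chartAt := fun x => (hp x).choose
      mem_chart_source := fun x => (hp x).choose_spec.1
      chart_mem_atlas := fun x => ⟨x, rfl⟩ }
  exact ChartedSpace.locallyPathConnectedSpace M E

lemma pathConnected_cover [LocallyPathConnectedSpace M] (c : InfiniteCyclicCover M) :
    PathConnectedSpace c.E := by
  have := locallyPathConnected_cover c.isCoveringMap.isLocalHomeomorph
  exact pathConnectedSpace_iff_connectedSpace.2 inferInstance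


lemma T_sub_one_smul (c : InfiniteCyclicCover M) (a : AlexanderModule c) :
    (T 1 - 1 : ℤ[T;T⁻¹]) • a =
      (show AlexanderModule c from (show Hn 1 c.E from HnMap 1 c.deck a) - (show Hn 1 c.E from a)) := by
  rw [sub_smul, one_smul, T_one_smul]
  rfl

/-- The map of singular sets induced by the deck transformation. -/
noncomputable abbrev dk (c : InfiniteCyclicCover M) :
    TopCat.toSSet.obj (TopCat.of c.E) ⟶ TopCat.toSSet.obj (TopCat.of c.E) :=
  TopCat.toSSet.map (TopCat.ofHom ⟨c.deck, c.deck.continuous⟩)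

/-- The map of singular sets induced by the projection. -/
noncomputable abbrev pr (c : InfiniteCyclicCover M) :
    TopCat.toSSet.obj (TopCat.of c.E) ⟶ TopCat.toSSet.obj (TopCat.of M) :=
  TopCat.toSSet.map (TopCat.ofHom ⟨c.proj, c.isCoveringMap.continuous⟩)

lemma isFreeZ (c : InfiniteCyclicCover M) :
    IsFreeZQuotient (dk c) (pr c) (fun n => simplexAct c.E n c.deck) :=
  isFreeZQuotient_of_covering c.isCoveringMap c.surjective c.deck c.proj_deck c.existsUnique_zpow

lemma HnMap_eq (c : InfiniteCyclicCover M) (n : ℕ) (a : Hn n c.E) :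
    HnMap n c.deck a = (SSet.homologyMap (dk c) RZ n).hom a := rfl

/-- The map `H₁(E) → H₁(M)`. -/
noncomputable def prH (c : InfiniteCyclicCover M) : AlexanderModule c →+ Hn 1 M :=
  ((SSet.homologyMap (pr c) RZ 1).hom : Hn 1 c.E →ₗ[ℤ] Hn 1 M).toAddMonoidHom

lemma prH_eq_zero_iff (c : InfiniteCyclicCover M) (a : AlexanderModule c) :
    prH c a = 0 ↔ ∃ b : AlexanderModule c, a = (T 1 - 1 : ℤ[T;T⁻¹]) • b := by
  constructor
  · intro h
    obtain ⟨b, hb⟩ := wang_exact₂ (isFreeZ c) 1 a h
    exact ⟨b, hb.symm.trans (T_sub_one_smul c b).symm⟩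
  · rintro ⟨b, rfl⟩
    rw [T_sub_one_smul]
    have h1 : SSet.homologyMap (dk c) RZ 1 ≫ SSet.homologyMap (pr c) RZ 1 =
        SSet.homologyMap (pr c) RZ 1 := by
      rw [← SSet.homologyMap_comp, (isFreeZ c).comm]
    have h2 : (SSet.homologyMap (pr c) RZ 1).hom ((SSet.homologyMap (dk c) RZ 1).hom b) =
        (SSet.homologyMap (pr c) RZ 1).hom b := congrArg (fun f => f.hom b) h1
    have h3 : ∀ x y : (SSet.homology (TopCat.toSSet.obj (TopCat.of c.E)) RZ 1 : ModuleCat.{0} ℤ),
        (SSet.homologyMap (pr c) RZ 1).hom x = (SSet.homologyMap (pr c) RZ 1).hom y →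
        (SSet.homologyMap (pr c) RZ 1).hom (x - y) = 0 := by
      intro x y hxy
      rw [map_sub, hxy, sub_self]
    exact h3 _ _ h2

/-- The connecting map `H₁(M) → H₀(E)`. -/
noncomputable def connecting (c : InfiniteCyclicCover M) : Hn 1 M →ₗ[ℤ] Hn 0 c.E :=
  ((wangSC_shortExact (isFreeZ c)).δ 1 0 (by simp)).hom

lemma connecting_eq_zero_iff (c : InfiniteCyclicCover M) (x : Hn 1 M) :
    connecting c x = 0 ↔ ∃ a, prH c a = x := by
  constructor
  · intro h
    exact wang_exact₃ (isFreeZ c) 1 0 (by simp) x h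
  · rintro ⟨a, rfl⟩
    exact wang_comp₃ (isFreeZ c) 1 0 (by simp) a

lemma connecting_surjective [PathConnectedSpace M] (c : InfiniteCyclicCover M)
    [PathConnectedSpace c.E] : Function.Surjective (connecting c) := by
  intro a
  have : PathConnectedSpace (TopCat.of c.E) := inferInstanceAs (PathConnectedSpace c.E)
  exact wang_exact₁ (isFreeZ c) a

/-- `H₀(E) ≅ ℤ`. -/
noncomputable def h0Equiv (E : Type) [TopologicalSpace E] [PathConnectedSpace E] :
    Hn 0 E ≃ₗ[ℤ] ℤ :=
  have : PathConnectedSpace (TopCat.of E) := inferInstanceAs (PathConnectedSpace E)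
  (asIso ((TopCat.toSSet.obj (TopCat.of E)).homology₀ε RZ)).toLinearEquiv


lemma mem_ker_iff_of_rank_one {G Z H : Type} [AddCommGroup G] [AddCommGroup Z] [AddCommGroup H]
    (e : G ≃+ H) [Module.Finite ℤ H] (hrank : Module.finrank ℤ H = 1)
    (δ' : G →+ Z) (hδ : Function.Surjective δ') (z' : Z ≃+ ℤ) (x : G) :
    δ' x = 0 ↔ IsOfFinAddOrder x := by
  let δ : G →ₗ[ℤ] Z := δ'.toIntLinearMap
  let z : Z ≃ₗ[ℤ] ℤ := z'.toIntLinearEquiv
  change δ x = 0 ↔ _
  have hfinG : Module.Finite ℤ G := Module.Finite.equiv e.symm.toIntLinearEquiv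
  have hrankG : Module.finrank ℤ G = 1 := by
    rw [← hrank]; exact e.toIntLinearEquiv.finrank_eq
  constructor
  · intro hx
    have h1 := Submodule.finrank_quotient_add_finrank (LinearMap.ker δ)
    have h2 : Module.finrank ℤ (G ⧸ LinearMap.ker δ) = 1 := by
      have e2 : (G ⧸ LinearMap.ker δ) ≃ₗ[ℤ] ℤ := (δ.quotKerEquivOfSurjective hδ).trans z
      rw [e2.finrank_eq, Module.finrank_self]
    rw [h2, hrankG] at h1
    have h3 : Module.finrank ℤ (LinearMap.ker δ) = 0 := by omega
    rw [Module.finrank_eq_zero_iff_isTorsion] at h3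
    obtain ⟨a, ha⟩ := @h3 (⟨x, hx⟩ : LinearMap.ker δ)
    rw [isOfFinAddOrder_iff_zsmul_eq_zero]
    refine ⟨(a : ℤ), nonZeroDivisors.coe_ne_zero a, ?_⟩
    have := congrArg Subtype.val ha
    exact this
  · intro hx
    rw [isOfFinAddOrder_iff_zsmul_eq_zero] at hx
    obtain ⟨n, hn, hnx⟩ := hx
    have h1 : n • z (δ x) = 0 := by
      rw [← map_zsmul, ← map_zsmul, hnx, map_zero, map_zero]
    have h2 : z (δ x) = 0 := by
      rcases smul_eq_zero.1 h1 with h | h
      · exact absurd h hn
      · exact h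
    simpa using h2

lemma finite_torsion {H : Type} [AddCommGroup H] [Module.Finite ℤ H] :
    Finite (AddCommGroup.torsion H) := by
  have h1 : Module.Finite ℤ (AddCommGroup.torsion H) :=
    inferInstanceAs (Module.Finite ℤ (AddSubgroup.toIntSubmodule (AddCommGroup.torsion H)))
  have h2 : AddGroup.FG (AddCommGroup.torsion H) := Module.Finite.iff_addGroup_fg.1 h1
  refine AddCommGroup.finite_of_fg_isAddTorsion _ fun x => ?_
  exact ((AddCommGroup.torsion H).subtype_injective.isOfFinAddOrder_iff).1 x.2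

/-- The obstruction to realizability. -/
theorem obstruction {M : Type} [TopologicalSpace M] [PathConnectedSpace M]
    [LocallyPathConnectedSpace M] {H : Type} [AddCommGroup H] [Module.Finite ℤ H]
    (hrank : Module.finrank ℤ H = 1) {D : ℤ[T;T⁻¹]}
    (hD : (ev1 D).natAbs = Nat.card (AddCommGroup.torsion H)) (hreal : Realizes M H D)
    (p r : ℕ) [Fact p.Prime] (φ : AddCommGroup.torsion H →+ (Fin r → ZMod p))
    (hφ : Function.Surjective φ) : (PowerSeries.X : PowerSeries (ZMod p)) ^ r ∣ theta p D := by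
  obtain ⟨c, ⟨e⟩, hord⟩ := hreal
  have hord' : IsOrder (AlexanderModule c) D := hord
  obtain ⟨m, n, P, f, hf, hP, hgcd⟩ := hord'
  have hpc := pathConnected_cover c
  -- the kernel `K` of `H₁(M) → H₀(E)`
  let K := LinearMap.ker (connecting c)
  have hmem : ∀ x, x ∈ K ↔ IsOfFinAddOrder x := fun x =>
    mem_ker_iff_of_rank_one e hrank (connecting c).toAddMonoidHom (connecting_surjective c)
      (h0Equiv c.E).toAddEquiv x
  let ψ : K →+ AddCommGroup.torsion H :=
    { toFun := fun x => ⟨e x, by
        have h1 : IsOfFinAddOrder (x : Hn 1 M) := (hmem _).1 x.2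
        exact e.toAddMonoidHom.isOfFinAddOrder h1⟩
      map_zero' := by ext; simp
      map_add' := by intro x y; ext; simp }
  have hψ : Function.Bijective ψ := by
    constructor
    · intro x y hxy
      have := congrArg Subtype.val hxy
      exact Subtype.ext (e.injective this)
    · rintro ⟨y, hy⟩
      have h1 : IsOfFinAddOrder (e.symm y) := e.symm.toAddMonoidHom.isOfFinAddOrder hy
      exact ⟨⟨e.symm y, (hmem _).2 h1⟩, Subtype.ext (e.apply_symm_apply y)⟩
  have hfinT : Finite (AddCommGroup.torsion H) := finite_torsion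
  have hfinK : Finite K := Finite.of_injective ψ hψ.1
  have hcard : Nat.card K = Nat.card (AddCommGroup.torsion H) :=
    Nat.card_congr (Equiv.ofBijective ψ hψ)
  let q : AlexanderModule c →+ K :=
    { toFun := fun a => ⟨prH c a, (connecting_eq_zero_iff c _).2 ⟨a, rfl⟩⟩
      map_zero' := by ext; simp
      map_add' := by intro x y; ext; simp }
  have hq : Function.Surjective q := by
    rintro ⟨x, hx⟩
    obtain ⟨a, ha⟩ := (connecting_eq_zero_iff c x).1 hx
    exact ⟨a, Subtype.ext ha⟩
  have hker : ∀ a : AlexanderModule c, q a = 0 ↔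
      ∃ b : AlexanderModule c, a = (T 1 - 1 : ℤ[T;T⁻¹]) • b := by
    intro a
    rw [← prH_eq_zero_iff]
    constructor
    · intro h
      exact congrArg Subtype.val h
    · intro h
      exact Subtype.ext h
  exact alg_core q hq hker P f hf hP D ((hgcd D).2 dvd_rfl) (by rw [hD, hcard]) p r
    (φ.comp ψ) (hφ.comp hψ.2)

end Pool.Agent.MP31b0c0
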